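import Mathlib

/-!
# Kahn's two-dimensional version of Rota's basis conjecture fails in every dimension `n ≥ 4`

Symbols are the standard basis vectors.  Fix four symbols `p₁, p₂, q₁, q₂`; the other `n - 4`
symbols are called extra.  All bases outside the last row and the last column are the standard
basis.  The bases of the last column (apart from the corner) are
`C = {p₁ + q₁, p₂ + q₂, q₁, q₂, s (s extra)}`, those of the last row are
`R = {q₁ + p₁ + p₂ + ∑ s, q₂ + p₁ + p₂, p₁, p₂, s (s extra)}`, and the corner is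
`X = {p₁ + q₁, p₂ + q₂, R_{q₁}, R_{q₂}, p₁ + q₁ + s (s extra)}`.

The first `n - 1` entries of a row miss one symbol, and so do those of a column; by double counting
the two multisets of missed symbols agree.  Looking at `C` (for `pᵢ` and the extra symbols) and at
`R` (for `q₁, q₂`), no symbol is missed twice, so exactly one symbol `w` is missed by no row and no
column.  In each case `w = q₁`, `w = q₂`, `w ∉ {q₁, q₂}` the entries of the last column or of the
last row are then so restricted that no element of `X` completes both.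
-/

set_option autoImplicit false
set_option linter.all false

namespace Pool.Agent.Results.MP_c8782e_co.AllDimensions

open Finset

variable {K : Type*} [Field K] {ι : Type*} [Fintype ι] [DecidableEq ι]

/-- A linear functional vanishing on a basis-sized linearly independent family vanishes. -/
theorem func_zero {v : ι → (ι → K)} (hv : LinearIndependent K v)
    (φ : (ι → K) →ₗ[K] K) (h : ∀ i, φ (v i) = 0) : φ = 0 := by
  have hs : Submodule.span K (Set.range v) = ⊤ :=
    hv.span_eq_top_of_card_eq_finrank' (by simp)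
  apply LinearMap.ext_on_range hs
  intro i; simpa using h i

theorem three {v : ι → (ι → K)} (hv : LinearIndependent K v) {i j k : ι}
    (hij : i ≠ j) (hik : i ≠ k) (hjk : j ≠ k) : v k ≠ v i + v j := by
  intro h
  rw [Fintype.linearIndependent_iff] at hv
  have := hv (fun t => if t = k then 1 else if t = i then -1 else if t = j then -1 else 0) ?_ k
  · simp at this
  · have e : ∀ t : ι, (if t = k then (1:K) else if t = i then -1 else if t = j then -1 else 0) • v t
        = (if t = k then v t else 0) + (if t = i then - v t else 0) + (if t = j then - v t else 0) := by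
      intro t
      by_cases h1 : t = k
      · subst h1; simp [hik.symm, hjk.symm]
      · by_cases h2 : t = i
        · subst h2; simp [h1, hij]
        · by_cases h3 : t = j
          · subst h3; simp [h1, h2]
          · simp [h1, h2, h3]
    simp only [e, Finset.sum_add_distrib, Finset.sum_ite_eq', Finset.mem_univ, if_true]
    rw [h]; abel

/-- the functional `x ↦ x a - x b - t x c` -/
def fn (a b c : ι) (t : K) : (ι → K) →ₗ[K] K where
  toFun x := x a - x b - t * x c
  map_add' x y := by simp only [Pi.add_apply]; ring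
  map_smul' r x := by simp only [Pi.smul_apply, smul_eq_mul, RingHom.id_apply]; ring

theorem fn_apply (a b c : ι) (t : K) (x : ι → K) : fn a b c t x = x a - x b - t * x c := rfl

/-! ### The bases -/

section
variable (K) (p1 p2 q1 q2 : ι)

/-- sum over the extra symbols -/
def S (x : ι → K) : K := ∑ k ∈ univ.filter (fun k => k ≠ p1 ∧ k ≠ p2 ∧ k ≠ q1 ∧ k ≠ q2), x k

def TC : (ι → K) →ₗ[K] (ι → K) where
  toFun x c := if c = q1 then x q1 + x p1 else if c = q2 then x q2 + x p2 else x c
  map_add' x y := by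
    funext c; simp only [Pi.add_apply]; split_ifs <;> ring
  map_smul' a x := by
    funext c; simp only [Pi.smul_apply, smul_eq_mul, RingHom.id_apply]; split_ifs <;> ring

def TR : (ι → K) →ₗ[K] (ι → K) where
  toFun x c := if c = q1 then x q1 else if c = q2 then x q2
    else if c = p1 ∨ c = p2 then x c + x q1 + x q2 else x c + x q1
  map_add' x y := by
    funext c; simp only [Pi.add_apply]; split_ifs <;> ring
  map_smul' a x := by
    funext c; simp only [Pi.smul_apply, smul_eq_mul, RingHom.id_apply]; split_ifs <;> ring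

def TX : (ι → K) →ₗ[K] (ι → K) where
  toFun x c := if c = p1 then x p1 + x q1 + x q2 + S K p1 p2 q1 q2 x
    else if c = p2 then x p2 + x q1 + x q2
    else if c = q1 then x q1 + x p1 + S K p1 p2 q1 q2 x
    else if c = q2 then x q2 + x p2 else x c + x q1
  map_add' x y := by
    have : S K p1 p2 q1 q2 (x + y) = S K p1 p2 q1 q2 x + S K p1 p2 q1 q2 y := by
      simp [S, Finset.sum_add_distrib]
    funext c; simp only [Pi.add_apply, this]; split_ifs <;> ring
  map_smul' a x := by
    have : S K p1 p2 q1 q2 (a • x) = a * S K p1 p2 q1 q2 x := by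
      simp [S, Finset.mul_sum]
    funext c; simp only [Pi.smul_apply, smul_eq_mul, RingHom.id_apply, this]; split_ifs <;> ring

end

variable {p1 p2 q1 q2 : ι}

theorem TC_inj (h1 : p1 ≠ q1) (h2 : p1 ≠ q2) (h3 : p2 ≠ q1) (h4 : p2 ≠ q2) (h6 : q1 ≠ q2) :
    Function.Injective (TC K p1 p2 q1 q2) := by
  rw [injective_iff_map_eq_zero]
  intro x hx
  have hc : ∀ c, TC K p1 p2 q1 q2 x c = 0 := fun c => congrFun hx c
  have e1 := hc p1
  have e2 := hc p2
  have e3 := hc q1
  have e4 := hc q2
  simp only [TC, LinearMap.coe_mk, AddHom.coe_mk, h1, h2, h3, h4, h6.symm, if_false, if_true] at e1 e2 e3 e4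
  funext c
  have e := hc c
  simp only [TC, LinearMap.coe_mk, AddHom.coe_mk] at e
  by_cases a1 : c = q1
  · subst a1; simp [e1] at e3; simpa using e3
  · by_cases a2 : c = q2
    · subst a2; simp [e2] at e4; simpa using e4
    · simpa [a1, a2] using e

theorem TR_inj (h6 : q1 ≠ q2) :
    Function.Injective (TR K p1 p2 q1 q2) := by
  rw [injective_iff_map_eq_zero]
  intro x hx
  have hc : ∀ c, TR K p1 p2 q1 q2 x c = 0 := fun c => congrFun hx c
  have e3 := hc q1
  have e4 := hc q2
  simp only [TR, LinearMap.coe_mk, AddHom.coe_mk, h6.symm, if_false, if_true] at e3 e4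
  funext c
  have e := hc c
  simp only [TR, LinearMap.coe_mk, AddHom.coe_mk] at e
  by_cases a1 : c = q1
  · subst a1; simpa using e3
  · by_cases a2 : c = q2
    · subst a2; simpa using e4
    · by_cases a3 : c = p1 ∨ c = p2
      · simpa [a1, a2, a3, e3, e4] using e
      · simpa [a1, a2, a3, e3, e4] using e

theorem TX_inj (h0 : p1 ≠ p2) (h1 : p1 ≠ q1) (h2 : p1 ≠ q2) (h3 : p2 ≠ q1) (h4 : p2 ≠ q2)
    (h6 : q1 ≠ q2) :
    Function.Injective (TX K p1 p2 q1 q2) := by
  rw [injective_iff_map_eq_zero]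
  intro x hx
  have hc : ∀ c, TX K p1 p2 q1 q2 x c = 0 := fun c => congrFun hx c
  have e1 := hc p1
  have e2 := hc p2
  have e3 := hc q1
  have e4 := hc q2
  simp only [TX, LinearMap.coe_mk, AddHom.coe_mk, h0.symm, h1.symm, h2.symm, h3.symm, h4.symm,
    h6.symm, if_false, if_true] at e1 e2 e3 e4
  have z1 : x q2 = 0 := by linear_combination e1 - e3
  have z2 : x p2 = 0 := by linear_combination e4 - z1
  have z3 : x q1 = 0 := by linear_combination e2 - z2 - z1
  have z4 : ∀ c, c ≠ p1 → x c = 0 := by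
    intro c hc1
    by_cases a2 : c = p2
    · rw [a2]; exact z2
    by_cases a3 : c = q1
    · rw [a3]; exact z3
    by_cases a4 : c = q2
    · rw [a4]; exact z1
    have e := hc c
    simpa [TX, hc1, a2, a3, a4, z3] using e
  have z5 : S K p1 p2 q1 q2 x = 0 := by
    apply Finset.sum_eq_zero
    intro k hk
    exact z4 k (Finset.mem_filter.1 hk).2.1
  have z6 : x p1 = 0 := by linear_combination e3 - z3 - z5
  funext c
  by_cases a1 : c = p1
  · rw [a1]; exact z6
  · exact z4 c a1

/-- the basis `k ↦ T e_k` for an injective `T`. -/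
noncomputable def basisOf (T : (ι → K) →ₗ[K] (ι → K)) (hT : Function.Injective T) :
    Module.Basis ι K (ι → K) :=
  (Pi.basisFun K ι).map (LinearEquiv.ofInjectiveEndo T hT)

theorem basisOf_apply (T : (ι → K) →ₗ[K] (ι → K)) (hT : Function.Injective T) (k : ι) :
    basisOf T hT k = T (Pi.single k 1) := by
  simp [basisOf]

theorem missing (o : ι) (f : ι → ι) (hf : Set.InjOn f {j | j ≠ o}) :
    ∃ m : ι, ∀ k : ι, (∑ j ∈ univ.erase o, (if f j = k then 1 else 0)) + (if m = k then 1 else 0) = 1 := by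
  have hinj : Set.InjOn f ((univ.erase o : Finset ι) : Set ι) := by
    intro a ha b hb h
    exact hf (by simpa using ha) (by simpa using hb) h
  have hc : ((univ.erase o).image f).card = Fintype.card ι - 1 := by
    rw [Finset.card_image_of_injOn hinj, Finset.card_erase_of_mem (Finset.mem_univ o), Finset.card_univ]
  have hpos : 0 < Fintype.card ι := Fintype.card_pos_iff.2 ⟨o⟩
  have hc2 : (((univ.erase o).image f)ᶜ).card = 1 := by
    rw [Finset.card_compl, hc]; omega
  obtain ⟨m, hm⟩ := Finset.card_eq_one.1 hc2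
  refine ⟨m, fun k => ?_⟩
  have hk : k ∈ ((univ.erase o).image f)ᶜ ↔ k = m := by rw [hm]; simp
  rw [Finset.mem_compl] at hk
  rw [← Finset.card_filter]
  by_cases h : k = m
  · have h1 := hk.2 h
    rw [if_pos h.symm]
    have : (univ.erase o).filter (fun j => f j = k) = ∅ := by
      apply Finset.filter_eq_empty_iff.2
      intro j hj hjk
      exact h1 (Finset.mem_image.2 ⟨j, hj, hjk⟩)
    rw [this]; rfl
  · have h1 : k ∈ (univ.erase o).image f := by
      by_contra h2; exact h (hk.1 h2)
    obtain ⟨j, hj, hjk⟩ := Finset.mem_image.1 h1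
    rw [if_neg (fun h3 => h h3.symm), add_zero, Finset.card_eq_one]
    refine ⟨j, ?_⟩
    ext l
    simp only [Finset.mem_filter, Finset.mem_singleton]
    constructor
    · rintro ⟨hl, hlk⟩
      exact hinj (by simpa using hl) (by simpa using hj) (hlk.trans hjk.symm)
    · rintro rfl
      exact ⟨hj, hjk⟩

/-- The combinatorial core: rows and columns of the block miss the same multiset. -/
theorem balance (o : ι) (σ : ι → ι → ι) (m m' : ι → ι)
    (hm : ∀ i, i ≠ o → ∀ k, (∑ j ∈ univ.erase o, (if σ i j = k then 1 else 0)) + (if m i = k then 1 else 0) = 1)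
    (hm' : ∀ j, j ≠ o → ∀ k, (∑ i ∈ univ.erase o, (if σ i j = k then 1 else 0)) + (if m' j = k then 1 else 0) = 1)
    (k : ι) :
    ((univ.erase o).filter (fun i => m i = k)).card = ((univ.erase o).filter (fun j => m' j = k)).card := by
  have e1 : (∑ i ∈ univ.erase o, ∑ j ∈ univ.erase o, (if σ i j = k then 1 else 0))
      + ((univ.erase o).filter (fun i => m i = k)).card = (univ.erase o).card := by
    rw [Finset.card_filter, ← Finset.sum_add_distrib, Finset.card_eq_sum_ones]
    apply Finset.sum_congr rfl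
    intro i hi
    exact hm i (Finset.ne_of_mem_erase hi) k
  have e2 : (∑ j ∈ univ.erase o, ∑ i ∈ univ.erase o, (if σ i j = k then 1 else 0))
      + ((univ.erase o).filter (fun j => m' j = k)).card = (univ.erase o).card := by
    rw [Finset.card_filter, ← Finset.sum_add_distrib, Finset.card_eq_sum_ones]
    apply Finset.sum_congr rfl
    intro j hj
    exact hm' j (Finset.ne_of_mem_erase hj) k
  rw [Finset.sum_comm] at e2
  omega

/-- If every fibre has at most one element, exactly one symbol is missed. -/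
theorem unique_missing (o : ι) (m : ι → ι)
    (h1 : ∀ k, ((univ.erase o).filter (fun i => m i = k)).card ≤ 1) :
    ∃ w, ∀ k, k ≠ w → ∃ i, i ≠ o ∧ m i = k := by
  have hs : ∑ k : ι, ((univ.erase o).filter (fun i => m i = k)).card = (univ.erase o).card := by
    rw [← Finset.card_eq_sum_card_fiberwise]
    intro i _; simp
  have hc : (univ.erase o : Finset ι).card = Fintype.card ι - 1 := by
    rw [Finset.card_erase_of_mem (Finset.mem_univ o), Finset.card_univ]
  have hpos : 0 < Fintype.card ι := Fintype.card_pos_iff.2 ⟨o⟩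
  have hs2 : ∑ k : ι, (1 - ((univ.erase o).filter (fun i => m i = k)).card) = 1 := by
    have : ∑ k : ι, (1 - ((univ.erase o).filter (fun i => m i = k)).card)
        + ∑ k : ι, ((univ.erase o).filter (fun i => m i = k)).card = Fintype.card ι := by
      rw [← Finset.sum_add_distrib, ← Finset.card_univ, Finset.card_eq_sum_ones]
      apply Finset.sum_congr rfl
      intro k _
      have := h1 k
      omega
    omega
  by_contra hcon
  push Not at hcon
  -- two distinct missed symbols
  have hex : ∃ w, ((univ.erase o).filter (fun i => m i = w)).card = 0 := by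
    by_contra h; push Not at h
    have : ∑ k : ι, (1 - ((univ.erase o).filter (fun i => m i = k)).card) = 0 := by
      apply Finset.sum_eq_zero
      intro k _
      have := h k
      omega
    omega
  obtain ⟨w, hw⟩ := hex
  obtain ⟨k, hk, hk2⟩ := hcon w
  have hk0 : ((univ.erase o).filter (fun i => m i = k)).card = 0 := by
    rw [Finset.card_eq_zero, Finset.filter_eq_empty_iff]
    intro i hi
    exact hk2 i (Finset.ne_of_mem_erase hi)
  have h2 : 2 ≤ ∑ k : ι, (1 - ((univ.erase o).filter (fun i => m i = k)).card) := by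
    calc 2 = ∑ t ∈ ({w, k} : Finset ι), (1 - ((univ.erase o).filter (fun i => m i = t)).card) := by
          rw [Finset.sum_pair hk.symm, hw, hk0]
      _ ≤ _ := Finset.sum_le_sum_of_subset (Finset.subset_univ _)
  omega

section
variable (K) (p1 p2 q1 q2 : ι)
/-- vectors of the bases in the last column -/
def C (k : ι) : ι → K := TC K p1 p2 q1 q2 (Pi.single k 1)
/-- vectors of the bases in the last row -/
def R (k : ι) : ι → K := TR K p1 p2 q1 q2 (Pi.single k 1)
/-- vectors of the basis in the corner -/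
def X (k : ι) : ι → K := TX K p1 p2 q1 q2 (Pi.single k 1)
end

theorem S_single (k : ι) : S K p1 p2 q1 q2 (Pi.single k 1) =
    if (k ≠ p1 ∧ k ≠ p2 ∧ k ≠ q1 ∧ k ≠ q2) then 1 else 0 := by
  unfold S
  by_cases h : (k ≠ p1 ∧ k ≠ p2 ∧ k ≠ q1 ∧ k ≠ q2)
  · rw [if_pos h, Finset.sum_eq_single k]
    · simp
    · intro b _ hb; simp [hb]
    · intro hk; exact absurd (by simpa using h) hk
  · rw [if_neg h]
    apply Finset.sum_eq_zero
    intro b hb
    have : b ≠ k := by
      rintro rfl
      exact h (Finset.mem_filter.1 hb).2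
    simp [this]

theorem X_q1 (h0 : p1 ≠ p2) (h1 : p1 ≠ q1) (h2 : p1 ≠ q2) (h3 : p2 ≠ q1) (h4 : p2 ≠ q2)
    (h6 : q1 ≠ q2) : X K p1 p2 q1 q2 q1 = R K p1 p2 q1 q2 q1 := by
  funext c
  simp only [X, R, TX, TR, LinearMap.coe_mk, AddHom.coe_mk, S_single]
  by_cases c1 : c = p1
  · subst c1; simp [h0, h1, h2, h6, h0.symm, h1.symm, h2.symm, h6.symm, h3, h4, h3.symm, h4.symm]
  by_cases c2 : c = p2
  · subst c2; simp [h0, h1, h2, h6, h0.symm, h1.symm, h2.symm, h6.symm, h3, h4, h3.symm, h4.symm]
  by_cases c3 : c = q1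
  · subst c3; simp [h0, h1, h2, h6, h0.symm, h1.symm, h2.symm, h6.symm, h3, h4, h3.symm, h4.symm]
  by_cases c4 : c = q2
  · subst c4; simp [h0, h1, h2, h6, h0.symm, h1.symm, h2.symm, h6.symm, h3, h4, h3.symm, h4.symm]
  simp [c1, c2, c3, c4]

theorem X_q2 (h0 : p1 ≠ p2) (h1 : p1 ≠ q1) (h2 : p1 ≠ q2) (h3 : p2 ≠ q1) (h4 : p2 ≠ q2)
    (h6 : q1 ≠ q2) : X K p1 p2 q1 q2 q2 = R K p1 p2 q1 q2 q2 := by
  funext c
  simp only [X, R, TX, TR, LinearMap.coe_mk, AddHom.coe_mk, S_single]
  by_cases c1 : c = p1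
  · subst c1; simp [h0, h1, h2, h6, h0.symm, h1.symm, h2.symm, h6.symm, h3, h4, h3.symm, h4.symm]
  by_cases c2 : c = p2
  · subst c2; simp [h0, h1, h2, h6, h0.symm, h1.symm, h2.symm, h6.symm, h3, h4, h3.symm, h4.symm]
  by_cases c3 : c = q1
  · subst c3; simp [h0, h1, h2, h6, h0.symm, h1.symm, h2.symm, h6.symm, h3, h4, h3.symm, h4.symm]
  by_cases c4 : c = q2
  · subst c4; simp [h0, h1, h2, h6, h0.symm, h1.symm, h2.symm, h6.symm, h3, h4, h3.symm, h4.symm]
  simp [c1, c2, c3, c4, h6]

theorem X_p1 (h0 : p1 ≠ p2) (h1 : p1 ≠ q1) (h2 : p1 ≠ q2) (h3 : p2 ≠ q1) (h4 : p2 ≠ q2)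
    (h6 : q1 ≠ q2) : X K p1 p2 q1 q2 p1 = C K p1 p2 q1 q2 p1 := by
  funext c
  simp only [X, C, TX, TC, LinearMap.coe_mk, AddHom.coe_mk, S_single]
  by_cases c1 : c = p1
  · subst c1; simp [h0, h1, h2, h6, h0.symm, h1.symm, h2.symm, h6.symm, h3, h4, h3.symm, h4.symm]
  by_cases c2 : c = p2
  · subst c2; simp [h0, h1, h2, h6, h0.symm, h1.symm, h2.symm, h6.symm, h3, h4, h3.symm, h4.symm]
  by_cases c3 : c = q1
  · subst c3; simp [h0, h1, h2, h6, h0.symm, h1.symm, h2.symm, h6.symm, h3, h4, h3.symm, h4.symm]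
  by_cases c4 : c = q2
  · subst c4; simp [h0, h1, h2, h6, h0.symm, h1.symm, h2.symm, h6.symm, h3, h4, h3.symm, h4.symm]
  simp [c1, c2, c3, c4, h1.symm]

theorem X_p2 (h0 : p1 ≠ p2) (h1 : p1 ≠ q1) (h2 : p1 ≠ q2) (h3 : p2 ≠ q1) (h4 : p2 ≠ q2)
    (h6 : q1 ≠ q2) : X K p1 p2 q1 q2 p2 = C K p1 p2 q1 q2 p2 := by
  funext c
  simp only [X, C, TX, TC, LinearMap.coe_mk, AddHom.coe_mk, S_single]
  by_cases c1 : c = p1
  · subst c1; simp [h0, h1, h2, h6, h0.symm, h1.symm, h2.symm, h6.symm, h3, h4, h3.symm, h4.symm]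
  by_cases c2 : c = p2
  · subst c2; simp [h0, h1, h2, h6, h0.symm, h1.symm, h2.symm, h6.symm, h3, h4, h3.symm, h4.symm]
  by_cases c3 : c = q1
  · subst c3; simp [h0, h1, h2, h6, h0.symm, h1.symm, h2.symm, h6.symm, h3, h4, h3.symm, h4.symm]
  by_cases c4 : c = q2
  · subst c4; simp [h0, h1, h2, h6, h0.symm, h1.symm, h2.symm, h6.symm, h3, h4, h3.symm, h4.symm]
  simp [c1, c2, c3, c4, h3.symm]

theorem X_s (h0 : p1 ≠ p2) (h1 : p1 ≠ q1) (h2 : p1 ≠ q2) (h3 : p2 ≠ q1) (h4 : p2 ≠ q2)
    (h6 : q1 ≠ q2) {s : ι} (s1 : s ≠ p1) (s2 : s ≠ p2) (s3 : s ≠ q1) (s4 : s ≠ q2) :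
    X K p1 p2 q1 q2 s = C K p1 p2 q1 q2 p1 + C K p1 p2 q1 q2 s := by
  funext c
  simp only [X, C, TX, TC, LinearMap.coe_mk, AddHom.coe_mk, S_single, Pi.add_apply]
  by_cases c1 : c = p1
  · subst c1; simp [h0, h1, h2, h6, h0.symm, h1.symm, h2.symm, h6.symm, h3, h4, h3.symm, h4.symm,
      s1, s2, s3, s4, s1.symm, s2.symm, s3.symm, s4.symm]
  by_cases c2 : c = p2
  · subst c2; simp [h0, h1, h2, h6, h0.symm, h1.symm, h2.symm, h6.symm, h3, h4, h3.symm, h4.symm,
      s1, s2, s3, s4, s1.symm, s2.symm, s3.symm, s4.symm]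
  by_cases c3 : c = q1
  · subst c3; simp [h0, h1, h2, h6, h0.symm, h1.symm, h2.symm, h6.symm, h3, h4, h3.symm, h4.symm,
      s1, s2, s3, s4, s1.symm, s2.symm, s3.symm, s4.symm]
  by_cases c4 : c = q2
  · subst c4; simp [h0, h1, h2, h6, h0.symm, h1.symm, h2.symm, h6.symm, h3, h4, h3.symm, h4.symm,
      s1, s2, s3, s4, s1.symm, s2.symm, s3.symm, s4.symm]
  simp [c1, c2, c3, c4, s3.symm]

theorem main (o : ι) (h0 : p1 ≠ p2) (h1 : p1 ≠ q1) (h2 : p1 ≠ q2) (h3 : p2 ≠ q1) (h4 : p2 ≠ q2)
    (h6 : q1 ≠ q2) (B : ι → ι → Module.Basis ι K (ι → K))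
    (B1 : ∀ i j, i ≠ o → j ≠ o → B i j = Pi.basisFun K ι)
    (B2 : ∀ i, i ≠ o → B i o = basisOf (TC K p1 p2 q1 q2) (TC_inj h1 h2 h3 h4 h6))
    (B3 : ∀ j, j ≠ o → B o j = basisOf (TR K p1 p2 q1 q2) (TR_inj h6))
    (B4 : B o o = basisOf (TX K p1 p2 q1 q2) (TX_inj h0 h1 h2 h3 h4 h6)) :
    ¬ ∃ σ : ι → ι → ι,
      (∀ i, LinearIndependent K (fun j => B i j (σ i j))) ∧
      (∀ j, LinearIndependent K (fun i => B i j (σ i j))) := by
  classical
  rintro ⟨σ, hrow, hcol⟩
  have hBs : ∀ i j k, i ≠ o → j ≠ o → B i j k = Pi.single k 1 := by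
    intro i j k hi hj; rw [B1 i j hi hj]; simp
  have hBC : ∀ i k, i ≠ o → B i o k = C K p1 p2 q1 q2 k := by
    intro i k hi; rw [B2 i hi, basisOf_apply]; rfl
  have hBR : ∀ j k, j ≠ o → B o j k = R K p1 p2 q1 q2 k := by
    intro j k hj; rw [B3 j hj, basisOf_apply]; rfl
  have hBX : ∀ k, B o o k = X K p1 p2 q1 q2 k := by
    intro k; rw [B4, basisOf_apply]; rfl
  have hrinj : ∀ i, i ≠ o → Set.InjOn (σ i) {j | j ≠ o} := by
    intro i hi a ha b hb hab
    apply (hrow i).injective
    simp only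
    rw [hBs i a _ hi ha, hBs i b _ hi hb, hab]
  have hcinj : ∀ j, j ≠ o → Set.InjOn (fun i => σ i j) {i | i ≠ o} := by
    intro j hj a ha b hb hab
    apply (hcol j).injective
    simp only at hab ⊢
    rw [hBs a j _ ha hj, hBs b j _ hb hj, hab]
  have hm0 : ∀ i, ∃ m : ι, i ≠ o → ∀ k : ι,
      (∑ j ∈ univ.erase o, (if σ i j = k then 1 else 0)) + (if m = k then 1 else 0) = 1 := by
    intro i
    by_cases hi : i = o
    · exact ⟨o, fun h => absurd hi h⟩
    · obtain ⟨m, hm⟩ := missing o (σ i) (hrinj i hi)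
      exact ⟨m, fun _ => hm⟩
  have hm0' : ∀ j, ∃ m : ι, j ≠ o → ∀ k : ι,
      (∑ i ∈ univ.erase o, (if σ i j = k then 1 else 0)) + (if m = k then 1 else 0) = 1 := by
    intro j
    by_cases hj : j = o
    · exact ⟨o, fun h => absurd hj h⟩
    · obtain ⟨m, hm⟩ := missing o (fun i => σ i j) (hcinj j hj)
      exact ⟨m, fun _ => hm⟩
  choose m hm using hm0
  choose m' hm' using hm0'
  have hbal := balance o σ m m' hm hm'
  -- missing symbols are not used
  have hne : ∀ i j, i ≠ o → j ≠ o → σ i j ≠ m i := by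
    intro i j hi hj h
    have := hm i hi (m i)
    rw [if_pos rfl] at this
    have h5 : ∑ j ∈ univ.erase o, (if σ i j = m i then 1 else 0) = 0 := by omega
    rw [Finset.sum_eq_zero_iff] at h5
    have h6 := h5 j (by simp [hj])
    simp [h] at h6
  have hne' : ∀ i j, i ≠ o → j ≠ o → σ i j ≠ m' j := by
    intro i j hi hj h
    have := hm' j hj (m' j)
    rw [if_pos rfl] at this
    have h5 : ∑ i ∈ univ.erase o, (if σ i j = m' j then 1 else 0) = 0 := by omega
    rw [Finset.sum_eq_zero_iff] at h5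
    have h6 := h5 i (by simp [hi])
    simp [h] at h6
  have hCnz : ∀ i, i ≠ o → C K p1 p2 q1 q2 (σ i o) (m i) ≠ 0 := by
    intro i hi h
    have := func_zero (hrow i) (LinearMap.proj (m i)) (by
      intro j
      by_cases hj : j = o
      · subst hj; simp only [LinearMap.proj_apply]; rw [hBC i _ hi]; exact h
      · simp only [LinearMap.proj_apply]; rw [hBs i j _ hi hj]
        rw [Pi.single_eq_of_ne (hne i j hi hj).symm])
    have h7 := congrArg (fun φ : (ι → K) →ₗ[K] K => φ (Pi.single (m i) 1)) this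
    simp at h7
  have hRnz : ∀ j, j ≠ o → R K p1 p2 q1 q2 (σ o j) (m' j) ≠ 0 := by
    intro j hj h
    have := func_zero (hcol j) (LinearMap.proj (m' j)) (by
      intro i
      by_cases hi : i = o
      · subst hi; simp only [LinearMap.proj_apply]; rw [hBR j _ hj]; exact h
      · simp only [LinearMap.proj_apply]; rw [hBs i j _ hi hj]
        rw [Pi.single_eq_of_ne (hne' i j hi hj).symm])
    have h7 := congrArg (fun φ : (ι → K) →ₗ[K] K => φ (Pi.single (m' j) 1)) this
    simp at h7
  -- supports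
  have hCs : ∀ l k, k ≠ q1 → k ≠ q2 → C K p1 p2 q1 q2 l k ≠ 0 → l = k := by
    intro l k hk1 hk2 h
    by_contra hlk
    apply h
    simp [C, TC, hk1, hk2, Ne.symm hlk]
  have hCq1 : ∀ l, C K p1 p2 q1 q2 l q1 ≠ 0 → l = q1 ∨ l = p1 := by
    intro l h
    by_contra hlk
    push Not at hlk
    apply h
    simp [C, TC, Pi.single_apply, hlk.1.symm, hlk.2.symm]
  have hCq2 : ∀ l, C K p1 p2 q1 q2 l q2 ≠ 0 → l = q2 ∨ l = p2 := by
    intro l h
    by_contra hlk
    push Not at hlk
    apply h
    simp [C, TC, Pi.single_apply, hlk.1.symm, hlk.2.symm, h6.symm]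
  have hRq1 : ∀ l, R K p1 p2 q1 q2 l q1 ≠ 0 → l = q1 := by
    intro l h
    by_contra hlk
    apply h
    simp [R, TR, Pi.single_apply, Ne.symm hlk]
  have hRq2 : ∀ l, R K p1 p2 q1 q2 l q2 ≠ 0 → l = q2 := by
    intro l h
    by_contra hlk
    apply h
    simp [R, TR, Pi.single_apply, Ne.symm hlk, h6.symm]
  have hRs : ∀ l k, k ≠ q1 → k ≠ q2 → R K p1 p2 q1 q2 l k ≠ 0 → l = k ∨ l = q1 ∨ l = q2 := by
    intro l k hk1 hk2 h
    by_contra hlk
    push Not at hlk
    apply h
    simp [R, TR, Pi.single_apply, hk1, hk2, hlk.1.symm, hlk.2.1.symm, hlk.2.2.symm]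
  have hlast : ∀ i i', i ≠ o → i' ≠ o → σ i o = σ i' o → i = i' := by
    intro i i' hi hi' h
    apply (hcol o).injective
    simp only
    rw [hBC i _ hi, hBC i' _ hi', h]
  have hlast' : ∀ j j', j ≠ o → j' ≠ o → σ o j = σ o j' → j = j' := by
    intro j j' hj hj' h
    apply (hrow o).injective
    simp only
    rw [hBR j _ hj, hBR j' _ hj', h]
  have hle : ∀ k, ((univ.erase o).filter (fun i => m i = k)).card ≤ 1 := by
    intro k
    by_cases hk : k = q1 ∨ k = q2
    · rw [hbal k, Finset.card_le_one]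
      intro a ha b hb
      simp only [Finset.mem_filter, Finset.mem_erase, Finset.mem_univ, and_true] at ha hb
      apply hlast' a b ha.1 hb.1
      have e1 := hRnz a ha.1
      have e2 := hRnz b hb.1
      rw [ha.2] at e1; rw [hb.2] at e2
      rcases hk with rfl | rfl
      · rw [hRq1 _ e1, hRq1 _ e2]
      · rw [hRq2 _ e1, hRq2 _ e2]
    · push Not at hk
      rw [Finset.card_le_one]
      intro a ha b hb
      simp only [Finset.mem_filter, Finset.mem_erase, Finset.mem_univ, and_true] at ha hb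
      apply hlast a b ha.1 hb.1
      have e1 := hCnz a ha.1
      have e2 := hCnz b hb.1
      rw [ha.2] at e1; rw [hb.2] at e2
      rw [hCs _ k hk.1 hk.2 e1, hCs _ k hk.1 hk.2 e2]
  obtain ⟨w, hw⟩ := unique_missing o m hle
  have hw' : ∀ k, k ≠ w → ∃ j, j ≠ o ∧ m' j = k := by
    intro k hk
    obtain ⟨i, hi, hik⟩ := hw k hk
    have : 0 < ((univ.erase o).filter (fun i => m i = k)).card :=
      Finset.card_pos.2 ⟨i, by simp [hi, hik]⟩
    rw [hbal k] at this
    obtain ⟨j, hj⟩ := Finset.card_pos.1 this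
    simp only [Finset.mem_filter, Finset.mem_erase, Finset.mem_univ, and_true] at hj
    exact ⟨j, hj.1, hj.2⟩
  have hmw : ∀ i, i ≠ o → m i ≠ w := by
    -- the `n - 1` rows miss `n - 1` distinct symbols different from `w`
    intro i hi hiw
    have hs : ∑ k : ι, ((univ.erase o).filter (fun i => m i = k)).card = (univ.erase o).card := by
      rw [← Finset.card_eq_sum_card_fiberwise]
      intro i _; simp
    have hc : (univ.erase o : Finset ι).card = Fintype.card ι - 1 := by
      rw [Finset.card_erase_of_mem (Finset.mem_univ o), Finset.card_univ]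
    have hpos : 0 < Fintype.card ι := Fintype.card_pos_iff.2 ⟨o⟩
    have : Fintype.card ι ≤ ∑ k : ι, ((univ.erase o).filter (fun i => m i = k)).card := by
      rw [← Finset.card_univ, Finset.card_eq_sum_ones]
      apply Finset.sum_le_sum
      intro k _
      apply Finset.card_pos.2
      by_cases hk : k = w
      · exact ⟨i, by simp [hi, hiw, hk]⟩
      · obtain ⟨i', hi', hik⟩ := hw k hk
        exact ⟨i', by simp [hi', hik]⟩
    omega
  have hmw' : ∀ j, j ≠ o → m' j ≠ w := by
    intro j hj hjw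
    have : 0 < ((univ.erase o).filter (fun j => m' j = w)).card :=
      Finset.card_pos.2 ⟨j, by simp [hj, hjw]⟩
    rw [← hbal w] at this
    obtain ⟨i, hi⟩ := Finset.card_pos.1 this
    simp only [Finset.mem_filter, Finset.mem_erase, Finset.mem_univ, and_true] at hi
    exact hmw i hi.1 hi.2
  -- entries of the last column for symbols outside `q1, q2`
  have hCe : ∀ i, i ≠ o → m i ≠ q1 → m i ≠ q2 → σ i o = m i := fun i hi a b =>
    hCs _ _ a b (hCnz i hi)
  have hRe1 : ∀ j, j ≠ o → m' j = q1 → σ o j = q1 := fun j hj a => by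
    have := hRnz j hj; rw [a] at this; exact hRq1 _ this
  have hRe2 : ∀ j, j ≠ o → m' j = q2 → σ o j = q2 := fun j hj a => by
    have := hRnz j hj; rw [a] at this; exact hRq2 _ this
  have hXR : ∀ q, (q = q1 ∨ q = q2) → w ≠ q → σ o o = q → False := by
    intro q hq hwq hoq
    obtain ⟨j, hj, hjk⟩ := hw' q hwq.symm
    have e1 : σ o j = q := by
      rcases hq with rfl | rfl
      · exact hRe1 j hj hjk
      · exact hRe2 j hj hjk
    have : j = o := by
      apply (hrow o).injective
      simp only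
      rw [hBR j _ hj, hBX, e1, hoq]
      rcases hq with rfl | rfl
      · exact (X_q1 h0 h1 h2 h3 h4 h6).symm
      · exact (X_q2 h0 h1 h2 h3 h4 h6).symm
    exact hj this
  by_cases hwq1 : w = q1
  · -- first case
    have hall : ∀ i, i ≠ o → σ i o = m i := by
      intro i hi
      by_cases a1 : m i = q1
      · exact absurd (a1.trans hwq1.symm) (hmw i hi)
      by_cases a2 : m i = q2
      · have h7 := hCnz i hi
        rw [a2] at h7
        rcases hCq2 _ h7 with h | h
        · rw [h, a2]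
        · obtain ⟨i', hi', hik⟩ := hw p2 (by rw [hwq1]; exact h3)
          have e1 : σ i' o = p2 := by
            rw [hCe i' hi' (by rw [hik]; exact h3) (by rw [hik]; exact h4), hik]
          have e2 := hlast i i' hi hi' (h.trans e1.symm)
          rw [e2, hik] at a2
          exact absurd a2 h4
      · exact hCe i hi a1 a2
    have hX : X K p1 p2 q1 q2 (σ o o) q1 - X K p1 p2 q1 q2 (σ o o) p1 ≠ 0 := by
      intro hz
      have h7 := func_zero (hcol o) (fn q1 p1 q1 0) (by
        intro i
        rw [fn_apply, zero_mul, sub_zero]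
        by_cases hi : i = o
        · subst hi
          rw [hBX]; exact hz
        · skip
          rw [hBC i _ hi, hall i hi]
          have : m i ≠ q1 := fun h => hmw i hi (h.trans hwq1.symm)
          simp [C, TC, h1, h2, Pi.single_apply, this.symm])
      have h8 := congrArg (fun φ : (ι → K) →ₗ[K] K => φ (Pi.single q1 1)) h7
      simp [fn_apply, h1] at h8
    apply hXR q2 (Or.inr rfl) (by rw [hwq1]; exact h6)
    by_contra hne2
    apply hX
    simp [X, TX, h1.symm, h3.symm, Pi.single_apply, Ne.symm hne2, h0]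
    ring
  by_cases hwq2 : w = q2
  · have hall : ∀ i, i ≠ o → σ i o = m i := by
      intro i hi
      by_cases a2 : m i = q2
      · exact absurd (a2.trans hwq2.symm) (hmw i hi)
      by_cases a1 : m i = q1
      · have h7 := hCnz i hi
        rw [a1] at h7
        rcases hCq1 _ h7 with h | h
        · rw [h, a1]
        · obtain ⟨i', hi', hik⟩ := hw p1 (by rw [hwq2]; exact h2)
          have e1 : σ i' o = p1 := by
            rw [hCe i' hi' (by rw [hik]; exact h1) (by rw [hik]; exact h2), hik]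
          have e2 := hlast i i' hi hi' (h.trans e1.symm)
          rw [e2, hik] at a1
          exact absurd a1 h1
      · exact hCe i hi a1 a2
    have hX : X K p1 p2 q1 q2 (σ o o) q2 - X K p1 p2 q1 q2 (σ o o) p2 ≠ 0 := by
      intro hz
      have h7 := func_zero (hcol o) (fn q2 p2 q2 0) (by
        intro i
        rw [fn_apply, zero_mul, sub_zero]
        by_cases hi : i = o
        · subst hi
          rw [hBX]; exact hz
        · skip
          rw [hBC i _ hi, hall i hi]
          have : m i ≠ q2 := fun h => hmw i hi (h.trans hwq2.symm)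
          simp [C, TC, h3, h4, h6.symm, Pi.single_apply, this.symm])
      have h8 := congrArg (fun φ : (ι → K) →ₗ[K] K => φ (Pi.single q2 1)) h7
      simp [fn_apply, h4] at h8
    apply hXR q1 (Or.inl rfl) (by rw [hwq2]; exact h6.symm)
    by_contra hne2
    apply hX
    simp [X, TX, h2.symm, h4.symm, h6.symm, h0.symm, Pi.single_apply, Ne.symm hne2]
    ring
  -- `w` is not `q1` or `q2`
  have hallR : ∀ j, j ≠ o → σ o j = m' j := by
    intro j hj
    by_cases a1 : m' j = q1
    · rw [hRe1 j hj a1, a1]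
    by_cases a2 : m' j = q2
    · rw [hRe2 j hj a2, a2]
    rcases hRs _ _ a1 a2 (hRnz j hj) with h | h | h
    · exact h
    · obtain ⟨j', hj', hjk⟩ := hw' q1 (Ne.symm hwq1)
      have e2 := hlast' j j' hj hj' (h.trans (hRe1 j' hj' hjk).symm)
      rw [e2, hjk] at a1
      exact absurd rfl a1
    · obtain ⟨j', hj', hjk⟩ := hw' q2 (Ne.symm hwq2)
      have e2 := hlast' j j' hj hj' (h.trans (hRe2 j' hj' hjk).symm)
      rw [e2, hjk] at a2
      exact absurd rfl a2
  -- the functional
  set c : K := if w = p1 ∨ w = p2 then 1 else 0 with hc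
  have hX : X K p1 p2 q1 q2 (σ o o) w - X K p1 p2 q1 q2 (σ o o) q1
      - c * X K p1 p2 q1 q2 (σ o o) q2 ≠ 0 := by
    intro hz
    have h7 := func_zero (hrow o) (fn w q1 q2 c) (by
      intro j
      rw [fn_apply]
      by_cases hj : j = o
      · subst hj
        rw [hBX]; exact hz
      · skip
        rw [hBR j _ hj, hallR j hj]
        have hne3 : m' j ≠ w := hmw' j hj
        by_cases hw12 : w = p1 ∨ w = p2
        · rw [hc, if_pos hw12]
          simp [R, TR, hwq1, hwq2, hw12, Pi.single_apply, hne3.symm, h6.symm]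
        · rw [hc, if_neg hw12]
          simp [R, TR, hwq1, hwq2, hw12, Pi.single_apply, hne3.symm, h6.symm])
    have h8 := congrArg (fun φ : (ι → K) →ₗ[K] K => φ (Pi.single w 1)) h7
    simp [fn_apply, Pi.single_apply, Ne.symm hwq1, Ne.symm hwq2] at h8
  have g1 : σ o o ≠ q1 := fun h => hXR q1 (Or.inl rfl) hwq1 h
  have g2 : σ o o ≠ q2 := fun h => hXR q2 (Or.inr rfl) hwq2 h
  have hcolw : ∀ p, p ≠ q1 → p ≠ q2 → p ≠ w → ∃ i, i ≠ o ∧ σ i o = p := by
    intro p hp1 hp2 hpw
    obtain ⟨i, hi, hik⟩ := hw p hpw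
    exact ⟨i, hi, by rw [hCe i hi (by rw [hik]; exact hp1) (by rw [hik]; exact hp2), hik]⟩
  by_cases g3 : σ o o = p1
  · by_cases hwp : w = p1
    · apply hX
      rw [g3, hc, if_pos (Or.inl hwp), hwp, X_p1 h0 h1 h2 h3 h4 h6]
      simp [C, TC, h1, h2, h6.symm, h1.symm, h2.symm, h0.symm]
    · obtain ⟨i, hi, hik⟩ := hcolw p1 h1 h2 (Ne.symm hwp)
      apply hi
      apply (hcol o).injective
      simp only
      rw [hBC i _ hi, hBX, hik, g3, X_p1 h0 h1 h2 h3 h4 h6]
  by_cases g4 : σ o o = p2
  · by_cases hwp : w = p2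
    · apply hX
      rw [g4, hc, if_pos (Or.inr hwp), hwp, X_p2 h0 h1 h2 h3 h4 h6]
      simp [C, TC, h3, h4, h6.symm, h3.symm, h4.symm, h0]
    · obtain ⟨i, hi, hik⟩ := hcolw p2 h3 h4 (Ne.symm hwp)
      apply hi
      apply (hcol o).injective
      simp only
      rw [hBC i _ hi, hBX, hik, g4, X_p2 h0 h1 h2 h3 h4 h6]
  -- an extra symbol
  have hXs := X_s (K := K) h0 h1 h2 h3 h4 h6 g3 g4 g1 g2
  by_cases hwp : w = p1
  · apply hX
    rw [hc, if_pos (Or.inl hwp), hwp, hXs]
    simp [C, TC, h1, h2, h6.symm, Pi.single_apply, Ne.symm g3, Ne.symm g1, Ne.symm g2, Ne.symm g4,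
      h1.symm, h2.symm, h0.symm]
  by_cases hws : w = σ o o
  · apply hX
    have hw2 : w ≠ p2 := by rw [hws]; exact g4
    rw [hc, if_neg (by push Not; exact ⟨hwp, hw2⟩), hws, hXs]
    simp [C, TC, h1, h2, h6.symm, Pi.single_apply, Ne.symm g3, Ne.symm g1, Ne.symm g2, Ne.symm g4,
      h1.symm, h2.symm, h0.symm, g1, g2, g3]
  · obtain ⟨i, hi, hik⟩ := hcolw p1 h1 h2 (Ne.symm hwp)
    obtain ⟨i', hi', hik'⟩ := hcolw (σ o o) g1 g2 (Ne.symm hws)
    have hii : i ≠ i' := by
      rintro rfl
      exact g3 (hik'.symm.trans hik)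
    apply three (hcol o) hii hi hi'
    rw [hBX, hBC i _ hi, hBC i' _ hi', hik, hik', hXs]

/-- Kahn's two-dimensional version of Rota's basis conjecture fails over every field in every
dimension `n ≥ 4`, and it fails already for families which consist of the standard basis in all
positions outside one row and one column, and in which all bases of that row (respectively of
that column) coincide apart from the corner. -/
theorem result (K : Type*) [Field K] (n : ℕ) (hn : 4 ≤ n) :
    (∃ B : Fin n → Fin n → Module.Basis (Fin n) K (Fin n → K),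
      ¬ ∃ σ : Fin n → Fin n → Fin n,
        (∀ i, LinearIndependent K (fun j => B i j (σ i j))) ∧
        (∀ j, LinearIndependent K (fun i => B i j (σ i j)))) ∧
    (∃ C R X : Module.Basis (Fin n) K (Fin n → K), ∀ (o : Fin n)
      (B : Fin n → Fin n → Module.Basis (Fin n) K (Fin n → K)),
      (∀ i j, i ≠ o → j ≠ o → B i j = Pi.basisFun K (Fin n)) →
      (∀ i, i ≠ o → B i o = C) → (∀ j, j ≠ o → B o j = R) → B o o = X →
      ¬ ∃ σ : Fin n → Fin n → Fin n,
        (∀ i, LinearIndependent K (fun j => B i j (σ i j))) ∧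
        (∀ j, LinearIndependent K (fun i => B i j (σ i j)))) := by
  have hd : ∀ a b : ℕ, ∀ (ha : a < n) (hb : b < n), a ≠ b → (⟨a, ha⟩ : Fin n) ≠ ⟨b, hb⟩ := by
    intro a b ha hb hab h
    exact hab (Fin.mk.inj_iff.1 h)
  have hmain : (∃ C R X : Module.Basis (Fin n) K (Fin n → K), ∀ (o : Fin n)
      (B : Fin n → Fin n → Module.Basis (Fin n) K (Fin n → K)),
      (∀ i j, i ≠ o → j ≠ o → B i j = Pi.basisFun K (Fin n)) →
      (∀ i, i ≠ o → B i o = C) → (∀ j, j ≠ o → B o j = R) → B o o = X →
      ¬ ∃ σ : Fin n → Fin n → Fin n,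
        (∀ i, LinearIndependent K (fun j => B i j (σ i j))) ∧
        (∀ j, LinearIndependent K (fun i => B i j (σ i j)))) :=
    ⟨_, _, _, fun o B b1 b2 b3 b4 =>
      main (K := K) o (p1 := ⟨0, by omega⟩) (p2 := ⟨1, by omega⟩)
        (q1 := ⟨2, by omega⟩) (q2 := ⟨3, by omega⟩)
        (hd _ _ _ _ (by norm_num)) (hd _ _ _ _ (by norm_num)) (hd _ _ _ _ (by norm_num))
        (hd _ _ _ _ (by norm_num)) (hd _ _ _ _ (by norm_num)) (hd _ _ _ _ (by norm_num))
        B b1 b2 b3 b4⟩
  refine ⟨?_, hmain⟩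
  obtain ⟨C, R, X, h⟩ := hmain
  have o : Fin n := ⟨0, by omega⟩
  refine ⟨fun i j => if i = o then (if j = o then X else R) else (if j = o then C
    else Pi.basisFun K (Fin n)), h o _ ?_ ?_ ?_ ?_⟩
  · intro i j hi hj; simp [hi, hj]
  · intro i hi; simp [hi]
  · intro j hj; simp [hj]
  · simp

end Pool.Agent.Results.MP_c8782e_co.AllDimensions
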